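import Pool.Agent.Q139.Car.Tri

set_option autoImplicit false

/-!
# Products of three connected graphs with cycles
-/

namespace Pool.Agent.Q139.Car

open Matrix Finset Pool.Agent.H283R2.DR

variable {V W : Type} {d : ℕ}

/-- `H` contains a cycle. -/
def Ring (H : SimpleGraph W) : Prop :=
  ∃ (n : ℕ) (c : ℕ → W), 3 ≤ n ∧ (∀ i < n, ∀ j < n, c i = c j → i = j) ∧
    (∀ i, i + 1 < n → H.Adj (c i) (c (i + 1))) ∧ H.Adj (c (n - 1)) (c 0)

theorem ring_of_not_acyclic {H : SimpleGraph W} (hH : ¬ H.IsAcyclic) : Ring H := by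
  unfold SimpleGraph.IsAcyclic at hH
  push Not at hH
  obtain ⟨v, w, hw⟩ := hH
  have h3 := hw.three_le_length
  refine ⟨w.length, w.getVert, h3, ?_, ?_, ?_⟩
  · intro i hi j hj hij
    exact hw.getVert_injOn' (by simp only [Set.mem_ofPred_eq]; omega)
      (by simp only [Set.mem_ofPred_eq]; omega) hij
  · intro i hi
    exact w.adj_getVert_succ (by omega)
  · have h1 := w.adj_getVert_succ (i := w.length - 1) (by omega)
    have h2 : w.length - 1 + 1 = w.length := by omega
    rw [h2, w.getVert_length] at h1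
    rw [w.getVert_zero]
    exact h1

theorem ring_K3 : Ring K3 := by
  refine ⟨3, fun i => Fin.ofNat 3 i, le_rfl, ?_, ?_, ?_⟩
  · intro i hi j hj h
    have := congrArg Fin.val h
    simp only [Fin.ofNat] at this
    omega
  · intro i hi
    rw [SimpleGraph.top_adj]
    intro h
    have := congrArg Fin.val h
    simp only [Fin.ofNat] at this
    omega
  · rw [SimpleGraph.top_adj]
    decide

/-- the neighbours which are closer to a vertex -/
theorem exists_par {H : SimpleGraph W} (hH : H.Connected) (o : W) :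
    ∃ par : W → W, ∀ w, w ≠ o → H.Adj w (par w) ∧ H.dist (par w) o < H.dist w o := by
  classical
  have key : ∀ w, w ≠ o → ∃ x, H.Adj w x ∧ H.dist x o < H.dist w o := by
    intro w hw
    obtain ⟨p, hp⟩ := hH.exists_walk_length_eq_dist w o
    cases p with
    | nil => exact absurd rfl hw
    | cons h q =>
      refine ⟨_, h, ?_⟩
      have h1 := SimpleGraph.dist_le q
      rw [SimpleGraph.Walk.length_cons] at hp
      omega
  refine ⟨fun w => if h : w ≠ o then (key w h).choose else w, fun w hw => ?_⟩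
  simp only [dif_pos hw]
  exact (key w hw).choose_spec

/-- a parent function whose only cycle has length at least three -/
theorem exists_fun {H : SimpleGraph W} (hH : H.Connected) (hR : Ring H) :
    ∃ (f : W → W) (s : W), (∀ w, H.Adj w (f w)) ∧ f (f s) ≠ s ∧ ∀ w, ∃ k : ℕ, f^[k] w = s := by
  classical
  obtain ⟨n, c, h3, hinj, hadj, hcl⟩ := hR
  obtain ⟨par, hpar⟩ := exists_par hH (c 0)
  let f : W → W := fun w => if h : ∃ i, i < n ∧ c i = w then
    (if h.choose = 0 then c (n - 1) else c (h.choose - 1)) else par w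
  have hf : ∀ i < n, f (c i) = if i = 0 then c (n - 1) else c (i - 1) := by
    intro i hi
    have h : ∃ j, j < n ∧ c j = c i := ⟨i, hi, rfl⟩
    have h1 : h.choose = i := hinj _ h.choose_spec.1 _ hi h.choose_spec.2
    change (if h : ∃ j, j < n ∧ c j = c i then _ else _) = _
    rw [dif_pos h, h1]
  have hf0 : f (c 0) = c (n - 1) := by rw [hf 0 (by omega), if_pos rfl]
  have hfs : ∀ i, i + 1 < n → f (c (i + 1)) = c i := by
    intro i hi
    rw [hf (i + 1) hi, if_neg (by omega), Nat.add_sub_cancel]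
  have hit : ∀ k i, i + k < n → f^[k] (c (i + k)) = c i := by
    intro k
    induction k with
    | zero => intro i _; rfl
    | succ k ih =>
      intro i hi
      rw [Function.iterate_succ_apply, ← Nat.add_assoc, hfs (i + k) (by omega)]
      exact ih i (by omega)
  have h01 : ∀ i < n, ∃ k : ℕ, f^[k] (c i) = c 1 := by
    intro i hi
    rcases Nat.eq_zero_or_pos i with h | h
    · subst h
      refine ⟨n - 2 + 1, ?_⟩
      rw [Function.iterate_succ_apply, hf0]
      have h1 := hit (n - 2) 1 (by omega)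
      have h2 : 1 + (n - 2) = n - 1 := by omega
      rwa [h2] at h1
    · refine ⟨i - 1, ?_⟩
      have h1 := hit (i - 1) 1 (by omega)
      have h2 : 1 + (i - 1) = i := by omega
      rwa [h2] at h1
  refine ⟨f, c 1, ?_, ?_, ?_⟩
  · intro w
    by_cases h : ∃ i, i < n ∧ c i = w
    · obtain ⟨i, hi, rfl⟩ := h
      rcases Nat.eq_zero_or_pos i with h0 | h0
      · subst h0
        rw [hf0]
        exact hcl.symm
      · obtain ⟨i, rfl⟩ : ∃ j, i = j + 1 := ⟨i - 1, by omega⟩
        rw [hfs i hi]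
        exact (hadj i hi).symm
    · have h1 : f w = par w := dif_neg h
      rw [h1]
      refine (hpar w ?_).1
      rintro rfl
      exact h ⟨0, by omega, rfl⟩
  · have h1 : f (c 1) = c 0 := hfs 0 (by omega)
    rw [h1, hf0]
    intro h
    have := hinj (n - 1) (by omega) 1 (by omega) h
    omega
  · have key : ∀ (m : ℕ) (w : W), H.dist w (c 0) = m → ∃ k : ℕ, f^[k] w = c 1 := by
      intro m
      induction m using Nat.strong_induction_on with
      | _ m ih =>
        intro w hw
        by_cases h : ∃ i, i < n ∧ c i = w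
        · obtain ⟨i, hi, rfl⟩ := h
          exact h01 i hi
        · have h1 : f w = par w := dif_neg h
          have h2 : w ≠ c 0 := by
            rintro rfl
            exact h ⟨0, by omega, rfl⟩
          obtain ⟨k, hk⟩ := ih _ (by rw [← hw]; exact (hpar w h2).2) (par w) rfl
          refine ⟨k + 1, ?_⟩
          rw [Function.iterate_succ_apply, h1]
          exact hk
    exact fun w => key _ w rfl

theorem Pin.prod_cyc [Finite V] [Finite W] {a : ℕ} {G : SimpleGraph V} {H : SimpleGraph W}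
    (hH : H.Connected) (hR : Ring H) (hG : Pin d (a + 2) G) : Pin d (a + 1) (G.boxProd H) := by
  obtain ⟨f, s, h1, h2, h3⟩ := exists_fun hH hR
  exact Pin.prod_ring h1 h2 h3 hG

/-- **Replacing a triangle.** -/
theorem rigid_replace [Finite V] [Finite W] {G : SimpleGraph V} {H : SimpleGraph W}
    (hG : Pin d 1 G) (hK : GenRigid d (G.boxProd K3)) (hH : H.Connected) (hR : Ring H) :
    GenRigid d (G.boxProd H) := by
  obtain ⟨n, c, h3, hinj, hadj, hcl⟩ := hR
  obtain ⟨par, hpar⟩ := exists_par hH (c 0)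
  refine rigid_ext {w | ∃ j < n, c j = w} par (fun w => H.dist w (c 0)) ?_ hG
    (rigid_ring hG hK h3 hinj hadj hcl)
  intro w hw
  refine hpar w ?_
  rintro rfl
  exact hw ⟨0, by omega, rfl⟩

/-- **Extension by a connected factor.** -/
theorem rigid_mul [Finite V] [Finite W] {G : SimpleGraph V} {H : SimpleGraph W}
    (hG : Pin d 1 G) (hrig : GenRigid d G) (hH : H.Connected) : GenRigid d (G.boxProd H) := by
  obtain ⟨o⟩ := hH.nonempty
  obtain ⟨par, hpar⟩ := exists_par hH o
  refine rigid_ext {o} par (fun w => H.dist w o) (fun w hw => hpar w hw) hG ?_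
  obtain ⟨p, hp⟩ := hrig
  refine ⟨fun x => p x.1, ?_⟩
  intro q hq
  obtain ⟨A, b, hA, hb⟩ := hp (fun v => q (v, o)) (by
    intro u v huv
    exact hq (u, o) rfl (v, o) rfl (by rw [SimpleGraph.boxProd_adj]; exact Or.inl ⟨huv, rfl⟩))
  refine ⟨A, b, hA, ?_⟩
  rintro ⟨v, w⟩ hw
  have hw' : w = o := hw
  subst hw'
  exact hb v

/-- one factor with a cycle -/
theorem pin_one [Finite W] {H : SimpleGraph W} (hH : H.Connected) (hR : Ring H) {a : ℕ} :
    Pin (a + 2) (a + 1) H := by
  have h1 : Pin (a + 2) (a + 2) (⊥ : SimpleGraph Unit) := pin_full _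
  have h2 := h1.prod_cyc hH hR
  refine h2.map (Equiv.punitProd W) ?_
  rintro ⟨_, u⟩ ⟨_, v⟩ huv
  rw [SimpleGraph.boxProd_adj] at huv
  rcases huv with ⟨h, _⟩ | ⟨h, _⟩
  · exact absurd h (by simp)
  · exact h

/-- two factors with cycles -/
theorem pin_two [Finite V] [Finite W] {G : SimpleGraph V} {H : SimpleGraph W} (hG : G.Connected)
    (hGR : Ring G) (hH : H.Connected) (hR : Ring H) : Pin 3 1 (G.boxProd H) :=
  Pin.prod_cyc (a := 0) hH hR (pin_one (a := 1) hG hGR)

theorem conn_K3 : K3.Connected := by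
  have : Nonempty (Fin 3) := ⟨0⟩
  exact SimpleGraph.connected_top

/-- **Products of three connected graphs with cycles are generically rigid in `ℝ³`.** -/
theorem rigid_three {V₁ V₂ V₃ : Type} [Finite V₁] [Finite V₂] [Finite V₃] {H₁ : SimpleGraph V₁}
    {H₂ : SimpleGraph V₂} {H₃ : SimpleGraph V₃} (h1 : H₁.Connected) (r1 : Ring H₁)
    (h2 : H₂.Connected) (r2 : Ring H₂) (h3 : H₃.Connected) (r3 : Ring H₃) :
    GenRigid 3 ((H₁.boxProd H₂).boxProd H₃) := by
  -- the third factor
  have e1 : GenRigid 3 ((K3.boxProd K3).boxProd H₃) :=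
    rigid_replace (pin_two conn_K3 ring_K3 conn_K3 ring_K3) base h3 r3
  have e2 : GenRigid 3 ((K3.boxProd H₃).boxProd K3) := by
    refine genRigid_map ((Equiv.prodAssoc _ _ _).trans
      ((Equiv.prodCongr (Equiv.refl _) (Equiv.prodComm _ _)).trans
        (Equiv.prodAssoc _ _ _).symm)) ?_ e1
    rintro ⟨⟨a, b⟩, c⟩ ⟨⟨a', b'⟩, c'⟩ h
    simp only [SimpleGraph.boxProd_adj, Prod.mk.injEq] at h
    simp only [Equiv.trans_apply, Equiv.prodAssoc_apply, Equiv.prodCongr_apply, Prod.map,
      Equiv.refl_apply, Equiv.prodComm_apply, Prod.swap, Equiv.prodAssoc_symm_apply,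
      SimpleGraph.boxProd_adj, Prod.mk.injEq]
    tauto
  have e3 : GenRigid 3 ((K3.boxProd H₃).boxProd H₂) :=
    rigid_replace (pin_two conn_K3 ring_K3 h3 r3) e2 h2 r2
  have e4 : GenRigid 3 ((H₂.boxProd H₃).boxProd K3) := by
    refine genRigid_map (((Equiv.prodAssoc _ _ _).trans (Equiv.prodComm _ _)).trans
      (Equiv.prodCongr (Equiv.prodComm _ _) (Equiv.refl _))) ?_ e3
    rintro ⟨⟨a, b⟩, c⟩ ⟨⟨a', b'⟩, c'⟩ h
    simp only [SimpleGraph.boxProd_adj, Prod.mk.injEq] at h
    simp only [Equiv.trans_apply, Equiv.prodAssoc_apply, Equiv.prodCongr_apply, Prod.map,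
      Equiv.refl_apply, Equiv.prodComm_apply, Prod.swap,
      SimpleGraph.boxProd_adj, Prod.mk.injEq]
    tauto
  have e5 : GenRigid 3 ((H₂.boxProd H₃).boxProd H₁) :=
    rigid_replace (pin_two h2 r2 h3 r3) e4 h1 r1
  refine genRigid_map ((Equiv.prodComm _ _).trans (Equiv.prodAssoc _ _ _).symm) ?_ e5
  rintro ⟨⟨a, b⟩, c⟩ ⟨⟨a', b'⟩, c'⟩ h
  simp only [SimpleGraph.boxProd_adj, Prod.mk.injEq] at h
  simp only [Equiv.trans_apply, Equiv.prodComm_apply, Prod.swap, Equiv.prodAssoc_symm_apply,
    SimpleGraph.boxProd_adj, Prod.mk.injEq]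
  tauto

end Pool.Agent.Q139.Car
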