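import Pool.Agent.Q139.Car.Pin

set_option autoImplicit false

/-!
# Rigidity of a cartesian product from the rigidity of a part
-/

namespace Pool.Agent.Q139.Car

open Matrix Finset Pool.Agent.H283R2.DR

variable {V W : Type} {d : ℕ}

theorem genRigid_map {V' : Type} {G : SimpleGraph V}
    {G' : SimpleGraph V'} (e : V ≃ V') (he : ∀ u v, G.Adj u v → G'.Adj (e u) (e v))
    (h : GenRigid d G) : GenRigid d G' := by
  obtain ⟨p, hp⟩ := h
  refine ⟨fun v => p (e.symm v), ?_⟩
  intro q hq
  obtain ⟨A, b, hA, hb⟩ := hp (fun v => q (e v)) (by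
    intro u v huv
    have := hq (e u) (e v) (he u v huv)
    simpa using this)
  exact ⟨A, b, hA, fun v => by simpa using hb (e.symm v)⟩

theorem rigidOn_good [Finite V] (G : SimpleGraph V) (U : Set V) :
    TA.Good (fun p : V → Fin d → ℝ => RigidOn G U p) := by
  intro p0 p1 h0
  rw [rigidOn_iff_induce] at h0
  refine (TA.infRigid_good (G.induce U) (fun x : U => p0 x) (fun x : U => p1 x) h0).subset ?_
  intro s hs
  rw [Set.mem_ofPred_eq] at hs ⊢
  intro hc
  apply hs
  rw [rigidOn_iff_induce]
  exact hc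

theorem triv_motion {A : Matrix (Fin d) (Fin d) ℝ} (hA : Aᵀ = -A) (x y b : Fin d → ℝ) :
    (x - y) ⬝ᵥ ((A *ᵥ x + b) - (A *ᵥ y + b)) = 0 := by
  have h1 : (A *ᵥ x + b) - (A *ᵥ y + b) = A *ᵥ (x - y) := by
    rw [mulVec_sub]; abel
  rw [h1]
  exact TA.skew_dot hA _

/-- **Extension of rigidity.** Let the layers of `S` form a rigid part of the product, and let the
other layers be joined to layers of smaller rank. -/
theorem rigid_ext [Finite V] [Finite W] {G : SimpleGraph V} {H : SimpleGraph W} (S : Set W)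
    (par : W → W) (rk : W → ℕ) (hpar : ∀ w, w ∉ S → H.Adj w (par w) ∧ rk (par w) < rk w)
    (hG : Pin d 1 G) (hS : ∃ p : V × W → Fin d → ℝ, RigidOn (G.boxProd H) {x | x.2 ∈ S} p) :
    GenRigid d (G.boxProd H) := by
  classical
  let D : W → (V × W → Fin d → ℝ) → V → ℕ → Fin d → ℝ := fun w p v _ => p (v, w) - p (v, par w)
  obtain ⟨p, hp⟩ := TA.good_family
    (fun (i : Option W) (p : V × W → Fin d → ℝ) => match i with
      | none => RigidOn (G.boxProd H) {x | x.2 ∈ S} p
      | some w => w ∉ S → PinAt 1 G (fun v => p (v, w)) (D w p)) (by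
    rintro (_ | w)
    · exact rigidOn_good _ _
    · by_cases hw : w ∈ S
      · intro p0 p1 _
        refine Set.finite_empty.subset ?_
        intro s hs
        exact absurd (fun h : w ∉ S => absurd hw h) hs
      · have h1 : TA.Good (fun p : V × W → Fin d → ℝ =>
            PinAt 1 G (fun v => p (v, w)) (D w p)) := by
          refine good_comp (pin_good 1 G) (fun p => (fun v => p (v, w), D w p)) ?_
          intro x y r
          refine Prod.ext rfl ?_
          funext v l
          simp only [D, Prod.snd_add, Prod.smul_snd, Prod.snd_sub, Pi.add_apply, Pi.smul_apply,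
            Pi.sub_apply]
          module
        intro p0 p1 h0
        refine (h1 p0 p1 (h0 hw)).subset ?_
        intro s hs
        rw [Set.mem_ofPred_eq] at hs ⊢
        intro hc
        exact hs (fun _ => hc)) (by
    rintro (_ | w)
    · exact hS
    · by_cases hw : w ∈ S
      · exact ⟨0, fun h => absurd hw h⟩
      · obtain ⟨p, g, hp⟩ := hG
        refine ⟨fun y => if y.2 = w then p y.1 else p y.1 - g y.1 0, fun _ => ?_⟩
        have hne : par w ≠ w := (hpar w hw).1.ne'
        intro q hq hg
        refine hp q ?_ ?_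
        · intro u v huv
          have := hq u v huv
          simpa using this
        · intro v l hl
          have h0 : l = 0 := by omega
          subst h0
          have := hg v 0 hl
          simpa [D, hne] using this)
  have hrig : RigidOn (G.boxProd H) {x | x.2 ∈ S} p := hp none
  have hpin : ∀ w, w ∉ S → PinAt 1 G (fun v => p (v, w)) (D w p) := fun w => hp (some w)
  refine ⟨p, ?_⟩
  intro q hq
  obtain ⟨A, b, hA, hb⟩ := hrig q (fun u _ v _ huv => hq u v huv)
  refine ⟨A, b, hA, ?_⟩
  have key : ∀ (n : ℕ) (w : W), rk w = n → ∀ v, q (v, w) = A *ᵥ p (v, w) + b := by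
    intro n
    induction n using Nat.strong_induction_on with
    | _ n ih =>
      intro w hw v
      by_cases hwS : w ∈ S
      · exact hb (v, w) hwS
      · obtain ⟨h1, h2⟩ := hpar w hwS
        have h3 := fun v => ih (rk (par w)) (by omega) (par w) rfl v
        have h4 := hpin w hwS (fun v => q (v, w) - (A *ᵥ p (v, w) + b)) (by
          intro u v huv
          have e1 := hq (u, w) (v, w) (by
            rw [SimpleGraph.boxProd_adj]; exact Or.inl ⟨huv, rfl⟩)
          have e2 := triv_motion hA (p (u, w)) (p (v, w)) b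
          have e3 : (q (u, w) - (A *ᵥ p (u, w) + b)) - (q (v, w) - (A *ᵥ p (v, w) + b)) =
              (q (u, w) - q (v, w)) - ((A *ᵥ p (u, w) + b) - (A *ᵥ p (v, w) + b)) := by abel
          change (p (u, w) - p (v, w)) ⬝ᵥ ((q (u, w) - (A *ᵥ p (u, w) + b)) -
            (q (v, w) - (A *ᵥ p (v, w) + b))) = 0
          rw [e3, dotProduct_sub, e1, e2, sub_zero]) (by
          intro v l _
          have e1 := hq (v, w) (v, par w) (by
            rw [SimpleGraph.boxProd_adj]; exact Or.inr ⟨h1, rfl⟩)
          have e2 := triv_motion hA (p (v, w)) (p (v, par w)) b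
          rw [h3 v] at e1
          change (p (v, w) - p (v, par w)) ⬝ᵥ (q (v, w) - (A *ᵥ p (v, w) + b)) = 0
          have e3 : q (v, w) - (A *ᵥ p (v, w) + b) = (q (v, w) - (A *ᵥ p (v, par w) + b)) -
              ((A *ᵥ p (v, w) + b) - (A *ᵥ p (v, par w) + b)) := by abel
          rw [e3, dotProduct_sub, e1, e2, sub_zero]) v
        exact sub_eq_zero.1 h4
  rintro ⟨v, w⟩
  exact key _ w rfl v

/-- **The layers over a cycle.** If the product with a triangle is rigid then so is the product with
a longer cycle. -/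
theorem rigid_ring [Finite V] {G : SimpleGraph V} {H : SimpleGraph W} (hG : Pin d 1 G)
    (hK : GenRigid d (G.boxProd (⊤ : SimpleGraph (Fin 3)))) {n : ℕ} (h3 : 3 ≤ n) {c : ℕ → W}
    (hinj : ∀ i < n, ∀ j < n, c i = c j → i = j)
    (hadj : ∀ i, i + 1 < n → H.Adj (c i) (c (i + 1))) (hcl : H.Adj (c (n - 1)) (c 0)) :
    ∃ p : V × W → Fin d → ℝ, RigidOn (G.boxProd H) {x | ∃ j < n, c j = x.2} p := by
  classical
  -- positions on the segment from layer 2 to layer 0
  let τ : ℕ → ℝ := fun j => ((j : ℝ) - 2) / ((n : ℝ) - 2)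
  have hn : (0 : ℝ) < (n : ℝ) - 2 := by
    have : (3 : ℝ) ≤ n := by exact_mod_cast h3
    linarith
  let P : (V × Fin 3 → Fin d → ℝ) → V → ℕ → Fin d → ℝ := fun y v j =>
    if j = 0 then y (v, 0) else if j = 1 then y (v, 1) else
      y (v, 2) + τ j • (y (v, 0) - y (v, 2))
  obtain ⟨y, hy⟩ := TA.good_family
    (fun (i : Option (Fin n)) (y : V × Fin 3 → Fin d → ℝ) => match i with
      | none => InfRigid (G.boxProd (⊤ : SimpleGraph (Fin 3))) y
      | some j => 3 ≤ (j : ℕ) → PinAt 1 G (fun v => P y v j)
          (fun v _ => y (v, 0) - y (v, 2))) (by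
    rintro (_ | j)
    · exact TA.infRigid_good _
    · by_cases hj : 3 ≤ (j : ℕ)
      · have h1 : TA.Good (fun y : V × Fin 3 → Fin d → ℝ =>
            PinAt 1 G (fun v => P y v j) (fun v _ => y (v, 0) - y (v, 2))) := by
          refine good_comp (pin_good 1 G)
            (fun y => (fun v => P y v j, fun v _ => y (v, 0) - y (v, 2))) ?_
          intro x y r
          have hj0 : (j : ℕ) ≠ 0 := by omega
          have hj1 : (j : ℕ) ≠ 1 := by omega
          refine Prod.ext ?_ ?_
          · funext v
            simp only [P, hj0, hj1, if_false, Prod.fst_add, Prod.smul_fst, Prod.fst_sub,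
              Pi.add_apply, Pi.smul_apply, Pi.sub_apply]
            module
          · funext v l
            simp only [Prod.snd_add, Prod.smul_snd, Prod.snd_sub, Pi.add_apply, Pi.smul_apply,
              Pi.sub_apply]
            module
        intro p0 p1 h0
        refine (h1 p0 p1 (h0 hj)).subset ?_
        intro s hs
        rw [Set.mem_ofPred_eq] at hs ⊢
        intro hc
        exact hs (fun _ => hc)
      · intro p0 p1 _
        refine Set.finite_empty.subset ?_
        intro s hs
        exact absurd (fun h : 3 ≤ (j : ℕ) => absurd h hj) hs) (by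
    rintro (_ | j)
    · exact hK
    · by_cases hj : 3 ≤ (j : ℕ)
      · obtain ⟨p, g, hp⟩ := hG
        have hj0 : (j : ℕ) ≠ 0 := by omega
        have hj1 : (j : ℕ) ≠ 1 := by omega
        refine ⟨fun x => if x.2 = 0 then p x.1 + (1 - τ j) • g x.1 0 else
          p x.1 - τ j • g x.1 0, fun _ => ?_⟩
        have e1 : ∀ v, P (fun x => if x.2 = 0 then p x.1 + (1 - τ j) • g x.1 0 else
            p x.1 - τ j • g x.1 0) v j = p v := by
          intro v
          simp only [P, hj0, hj1, if_false, if_true, (by decide : (2 : Fin 3) ≠ 0)]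
          module
        intro q hq hg
        refine hp q ?_ ?_
        · intro u v huv
          have := hq u v huv
          beta_reduce at this
          rw [e1, e1] at this
          exact this
        · intro v l hl
          have h0 : l = 0 := by omega
          subst h0
          have h1 := hg v 0 hl
          simp only [if_true, (by decide : (2 : Fin 3) ≠ 0), if_false] at h1
          have h2 : p v + (1 - τ j) • g v 0 - (p v - τ j • g v 0) = g v 0 := by module
          rw [h2] at h1
          exact h1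
      · exact ⟨0, fun h => absurd h hj⟩)
  have hrig : InfRigid (G.boxProd (⊤ : SimpleGraph (Fin 3))) y := hy none
  have hpin : ∀ j, 3 ≤ j → j < n → PinAt 1 G (fun v => P y v j)
      (fun v _ => y (v, 0) - y (v, 2)) := fun j h hj => hy (some ⟨j, hj⟩) h
  -- the placement
  let idx : W → ℕ := fun w => if h : ∃ j, j < n ∧ c j = w then h.choose else 0
  have hidx : ∀ j < n, idx (c j) = j := by
    intro j hj
    have h : ∃ i, i < n ∧ c i = c j := ⟨j, hj, rfl⟩
    have h1 : idx (c j) = h.choose := dif_pos h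
    rw [h1]
    exact hinj _ h.choose_spec.1 _ hj h.choose_spec.2
  refine ⟨fun x => P y x.1 (idx x.2), ?_⟩
  intro q hq
  -- the edges inside a layer
  have hin : ∀ j < n, ∀ u v, G.Adj u v →
      (P y u j - P y v j) ⬝ᵥ (q (u, c j) - q (v, c j)) = 0 := by
    intro j hj u v huv
    have := hq (u, c j) ⟨j, hj, rfl⟩ (v, c j) ⟨j, hj, rfl⟩ (by
      rw [SimpleGraph.boxProd_adj]; exact Or.inl ⟨huv, rfl⟩)
    simp only [hidx j hj] at this
    exact this
  have hbar : ∀ j, j + 1 < n → ∀ v,
      (P y v j - P y v (j + 1)) ⬝ᵥ (q (v, c j) - q (v, c (j + 1))) = 0 := by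
    intro j hj v
    have := hq (v, c j) ⟨j, by omega, rfl⟩ (v, c (j + 1)) ⟨j + 1, hj, rfl⟩ (by
      rw [SimpleGraph.boxProd_adj]; exact Or.inr ⟨hadj j hj, rfl⟩)
    simp only [hidx j (by omega), hidx (j + 1) hj] at this
    exact this
  have hlast : ∀ v, (P y v (n - 1) - P y v 0) ⬝ᵥ (q (v, c (n - 1)) - q (v, c 0)) = 0 := by
    intro v
    have := hq (v, c (n - 1)) ⟨n - 1, by omega, rfl⟩ (v, c 0) ⟨0, by omega, rfl⟩ (by
      rw [SimpleGraph.boxProd_adj]; exact Or.inr ⟨hcl, rfl⟩)
    simp only [hidx (n - 1) (by omega), hidx 0 (by omega)] at this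
    exact this
  have hP0 : ∀ v, P y v 0 = y (v, 0) := fun v => by simp [P]
  have hP1 : ∀ v, P y v 1 = y (v, 1) := fun v => by simp [P]
  have hP2 : ∀ v, P y v 2 = y (v, 2) := fun v => by simp [P, τ]
  have hPj : ∀ j, 2 ≤ j → ∀ v, P y v j = y (v, 2) + τ j • (y (v, 0) - y (v, 2)) := by
    intro j hj v
    have hj0 : j ≠ 0 := by omega
    have hj1 : j ≠ 1 := by omega
    simp [P, hj0, hj1]
  have hτ : ∀ j : ℕ, τ (j + 1) = τ j + 1 / ((n : ℝ) - 2) := by
    intro j
    simp only [τ]
    push_cast
    field_simp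
    ring
  have hτn : τ (n - 1) = 1 - 1 / ((n : ℝ) - 2) := by
    simp only [τ]
    rw [Nat.cast_sub (by omega)]
    push_cast
    field_simp
    ring
  -- the component in the direction of the segment is constant
  have hcomp : ∀ j, 2 ≤ j → j < n → ∀ v,
      (y (v, 0) - y (v, 2)) ⬝ᵥ q (v, c j) = (y (v, 0) - y (v, 2)) ⬝ᵥ q (v, c 2) := by
    intro j hj
    induction j, hj using Nat.le_induction with
    | base => intro _ v; rfl
    | succ j hj ih =>
      intro hjn v
      have h1 := hbar j hjn v
      rw [hPj j hj, hPj (j + 1) (by omega), hτ] at h1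
      have h2 : y (v, 2) + τ j • (y (v, 0) - y (v, 2)) -
          (y (v, 2) + (τ j + 1 / ((n : ℝ) - 2)) • (y (v, 0) - y (v, 2))) =
          (-(1 / ((n : ℝ) - 2))) • (y (v, 0) - y (v, 2)) := by module
      rw [h2, smul_dotProduct, smul_eq_mul] at h1
      have h3 : -(1 / ((n : ℝ) - 2)) ≠ 0 := neg_ne_zero.2 (one_div_ne_zero hn.ne')
      have h4 := (mul_eq_zero.1 h1).resolve_left h3
      rw [dotProduct_sub, sub_eq_zero] at h4
      rw [← h4]
      exact ih (by omega) v
  have h20 : ∀ v, (y (v, 0) - y (v, 2)) ⬝ᵥ (q (v, c 0) - q (v, c 2)) = 0 := by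
    intro v
    have h1 := hlast v
    rw [hPj (n - 1) (by omega), hP0, hτn] at h1
    have h2 : y (v, 2) + (1 - 1 / ((n : ℝ) - 2)) • (y (v, 0) - y (v, 2)) - y (v, 0) =
        (-(1 / ((n : ℝ) - 2))) • (y (v, 0) - y (v, 2)) := by module
    rw [h2, smul_dotProduct, smul_eq_mul] at h1
    have h3 : -(1 / ((n : ℝ) - 2)) ≠ 0 := neg_ne_zero.2 (one_div_ne_zero hn.ne')
    have h4 := (mul_eq_zero.1 h1).resolve_left h3
    rw [dotProduct_sub, hcomp (n - 1) (by omega) (by omega) v] at h4
    rw [dotProduct_sub]
    linarith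
  -- the motion of the product with the triangle
  have hcol : ∀ i : Fin 3, ∀ v, P y v i = y (v, i) := by
    intro i v
    fin_cases i
    · exact hP0 v
    · exact hP1 v
    · exact hP2 v
  obtain ⟨A, b, hA, hb⟩ := hrig (fun x => q (x.1, c (x.2 : ℕ))) (by
    rintro ⟨u, i⟩ ⟨v, j⟩ huv
    rw [SimpleGraph.boxProd_adj] at huv
    rcases huv with ⟨h1, h2⟩ | ⟨h1, h2⟩
    · change i = j at h2
      subst h2
      have := hin i (by omega) u v h1
      rw [hcol, hcol] at this
      exact this
    · change u = v at h2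
      subst h2
      change i ≠ j at h1
      have e01 := hbar 0 (by omega) u
      have e12 := hbar 1 (by omega) u
      have e20 := h20 u
      rw [hP0, hP1] at e01
      rw [hP1, hP2] at e12
      have flip : ∀ a b a' b' : Fin d → ℝ, (a - b) ⬝ᵥ (a' - b') = 0 → (b - a) ⬝ᵥ (b' - a') = 0 := by
        intro a b a' b' h
        rw [← neg_sub a b, ← neg_sub a' b', neg_dotProduct, dotProduct_neg, neg_neg, h]
      fin_cases i <;> fin_cases j
      · exact absurd rfl h1
      · exact e01
      · exact e20
      · exact flip _ _ _ _ e01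
      · exact absurd rfl h1
      · exact e12
      · exact flip _ _ _ _ e20
      · exact flip _ _ _ _ e12
      · exact absurd rfl h1)
  refine ⟨A, b, hA, ?_⟩
  have hall : ∀ j < n, ∀ v, q (v, c j) = A *ᵥ P y v j + b := by
    intro j hj v
    rcases Nat.lt_or_ge j 3 with h | h
    · have := hb (v, ⟨j, h⟩)
      rw [← hcol] at this
      exact this
    · have h4 := hpin j h hj (fun v => q (v, c j) - (A *ᵥ P y v j + b)) (by
        intro u v huv
        have e1 := hin j hj u v huv
        have e2 := triv_motion hA (P y u j) (P y v j) b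
        have e3 : (q (u, c j) - (A *ᵥ P y u j + b)) - (q (v, c j) - (A *ᵥ P y v j + b)) =
            (q (u, c j) - q (v, c j)) - ((A *ᵥ P y u j + b) - (A *ᵥ P y v j + b)) := by abel
        change (P y u j - P y v j) ⬝ᵥ ((q (u, c j) - (A *ᵥ P y u j + b)) -
          (q (v, c j) - (A *ᵥ P y v j + b))) = 0
        rw [e3, dotProduct_sub, e1, e2, sub_zero]) (by
        intro v l _
        change (y (v, 0) - y (v, 2)) ⬝ᵥ (q (v, c j) - (A *ᵥ P y v j + b)) = 0
        have e1 := hcomp j (by omega) hj v
        have e2 := hb (v, 2)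
        change q (v, c 2) = A *ᵥ y (v, 2) + b at e2
        rw [e2] at e1
        rw [dotProduct_sub, e1, hPj j (by omega), mulVec_add, mulVec_smul, ← dotProduct_sub]
        have e3 : A *ᵥ y (v, 2) + b - (A *ᵥ y (v, 2) + τ j • A *ᵥ (y (v, 0) - y (v, 2)) + b) =
            (-τ j) • A *ᵥ (y (v, 0) - y (v, 2)) := by module
        rw [e3, dotProduct_smul, TA.skew_dot hA, smul_zero]) v
      exact sub_eq_zero.1 h4
  rintro ⟨v, w⟩ ⟨j, hj, rfl⟩
  change q (v, c j) = A *ᵥ P y v (idx (c j)) + b
  rw [hidx j hj]
  exact hall j hj v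

end Pool.Agent.Q139.Car
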