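import Pool.Agent.Q139.Car.Core
import Pool.Agent.TH349.Rig.Count

set_option autoImplicit false

/-!
# Cartesian products of families of graphs
-/

namespace Pool.Agent.Q139.Car

open Finset Pool.Agent.H283R2.DR

/-- The Cartesian product of a family of graphs: two tuples are adjacent if they are adjacent in
one coordinate and equal in all the others. -/
def cart {ι : Type} {V : ι → Type} (G : ∀ i, SimpleGraph (V i)) : SimpleGraph (∀ i, V i) where
  Adj x y := ∃ i, (G i).Adj (x i) (y i) ∧ ∀ j, j ≠ i → x j = y j
  symm := ⟨fun _ _ ⟨i, h, h'⟩ => ⟨i, h.symm, fun j hj => (h' j hj).symm⟩⟩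
  loopless := ⟨fun _ ⟨_, h, _⟩ => h.ne rfl⟩

variable {ι : Type} {V : ι → Type}

open Classical in
/-- moving one coordinate -/
theorem cart_update {G : ∀ i, SimpleGraph (V i)} (x : ∀ i, V i) (i : ι) {a b : V i}
    (h : (G i).Adj a b) : (cart G).Adj (Function.update x i a) (Function.update x i b) := by
  refine ⟨i, ?_, fun j hj => ?_⟩
  · rw [Function.update_self, Function.update_self]
    exact h
  · rw [Function.update_of_ne hj, Function.update_of_ne hj]

open Classical in
theorem cart_reach {G : ∀ i, SimpleGraph (V i)} (hG : ∀ i, (G i).Connected) (S : Finset ι) :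
    ∀ x y : ∀ i, V i, (∀ j, j ∉ S → x j = y j) → (cart G).Reachable x y := by
  induction S using Finset.induction_on with
  | empty =>
    intro x y h
    have : x = y := funext fun j => h j (notMem_empty j)
    rw [this]
  | insert i S hi ih =>
    intro x y h
    have h1 : (cart G).Reachable x (Function.update x i (y i)) := by
      obtain ⟨w⟩ := (hG i).preconnected (x i) (y i)
      have key : ∀ (a b : V i) (w : (G i).Walk a b),
          (cart G).Reachable (Function.update x i a) (Function.update x i b) := by
        intro a b w
        induction w with
        | nil => exact SimpleGraph.Reachable.refl _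
        | cons h _ ih => exact (cart_update x i h).reachable.trans ih
      have h2 := key _ _ w
      rwa [Function.update_eq_self] at h2
    refine h1.trans (ih _ _ ?_)
    intro j hj
    by_cases hji : j = i
    · subst hji
      rw [Function.update_self]
    · rw [Function.update_of_ne hji]
      refine h j ?_
      rw [mem_insert]
      tauto

/-- products of connected graphs are connected -/
theorem cart_conn [Finite ι] {G : ∀ i, SimpleGraph (V i)} (hG : ∀ i, (G i).Connected) :
    (cart G).Connected := by
  classical
  have := Fintype.ofFinite ι
  have : ∀ i, Nonempty (V i) := fun i => (hG i).nonempty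
  exact ⟨fun x y => cart_reach hG univ x y (fun j hj => absurd (mem_univ j) hj)⟩

/-- a product with a factor with a cycle has a cycle -/
theorem ring_of_factor {G : ∀ i, SimpleGraph (V i)} (x : ∀ i, V i) (i : ι) (h : Ring (G i)) :
    Ring (cart G) := by
  classical
  obtain ⟨n, c, h3, hinj, hadj, hcl⟩ := h
  refine ⟨n, fun k => Function.update x i (c k), h3, ?_, ?_, ?_⟩
  · intro a ha b hb hab
    have := congrFun hab i
    simp only [Function.update_self] at this
    exact hinj a ha b hb this
  · intro k hk
    exact cart_update x i (hadj k hk)
  · exact cart_update x i hcl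

/-- a product of two factors with edges has a cycle -/
theorem ring_of_pair {G : ∀ i, SimpleGraph (V i)} (x : ∀ i, V i) {i j : ι} (hij : i ≠ j)
    {a a' : V i} {b b' : V j} (ha : (G i).Adj a a') (hb : (G j).Adj b b') : Ring (cart G) := by
  classical
  let q : V i → V j → (∀ i, V i) := fun u v => Function.update (Function.update x i u) j v
  have q1 : ∀ u v, q u v j = v := fun u v => Function.update_self _ _ _
  have q2 : ∀ u v, q u v i = u := by
    intro u v
    change Function.update (Function.update x i u) j v i = u
    rw [Function.update_of_ne hij, Function.update_self]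
  have e1 : ∀ u {v v'}, (G j).Adj v v' → (cart G).Adj (q u v) (q u v') :=
    fun u _ _ h => cart_update _ j h
  have e2 : ∀ {u u'} v, (G i).Adj u u' → (cart G).Adj (q u v) (q u' v) := by
    intro u u' v h
    refine ⟨i, ?_, fun l hl => ?_⟩
    · rw [q2, q2]
      exact h
    · change Function.update (Function.update x i u) j v l =
        Function.update (Function.update x i u') j v l
      by_cases hlj : l = j
      · subst hlj
        rw [Function.update_self, Function.update_self]
      · rw [Function.update_of_ne hlj, Function.update_of_ne hlj, Function.update_of_ne hl,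
          Function.update_of_ne hl]
  have hne : ∀ {u v u' v'}, q u v = q u' v' → u = u' ∧ v = v' := by
    intro u v u' v' h
    have h1 := congrFun h i
    have h2 := congrFun h j
    rw [q2, q2] at h1
    rw [q1, q1] at h2
    exact ⟨h1, h2⟩
  have haa := ha.ne
  have hbb := hb.ne
  refine ⟨4, fun k => if k = 0 then q a b else if k = 1 then q a' b else
    if k = 2 then q a' b' else q a b', by norm_num, ?_, ?_, ?_⟩
  · intro k hk l hl hkl
    have hk' : k = 0 ∨ k = 1 ∨ k = 2 ∨ k = 3 := by omega
    have hl' : l = 0 ∨ l = 1 ∨ l = 2 ∨ l = 3 := by omega
    rcases hk' with rfl | rfl | rfl | rfl <;> rcases hl' with rfl | rfl | rfl | rfl <;>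
      first
        | rfl
        | (exfalso
           simp only [if_true, if_false, one_ne_zero, OfNat.ofNat_ne_zero, OfNat.ofNat_ne_one,
             zero_ne_one] at hkl
           norm_num at hkl
           obtain ⟨h1, h2⟩ := hne hkl
           first
             | exact haa h1
             | exact haa h1.symm
             | exact hbb h2
             | exact hbb h2.symm)
  · intro k hk
    have hk' : k = 0 ∨ k = 1 ∨ k = 2 := by omega
    rcases hk' with rfl | rfl | rfl
    · norm_num
      exact e2 b ha
    · norm_num
      exact e1 a' hb
    · norm_num
      exact e2 b' ha.symm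
  · norm_num
    exact e1 a hb.symm

end Pool.Agent.Q139.Car
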