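import Pool.Agent.H283R2.DR.GenExists

set_option autoImplicit false

/-!
# Frameworks with bars to the ground at every vertex

`Pin d a G`: for some placement of the graph `G` in `ℝ^d` and for some directions of `a` bars to the
ground at every vertex there is no infinitesimal motion but zero.
-/

namespace Pool.Agent.Q139.Car

open Matrix Finset Pool.Agent.H283R2.DR

variable {V W : Type} {d : ℕ}

/-- The framework `(G, p)` with the bars of directions `g v 0, ..., g v (a - 1)` from each vertex `v`
to the ground has no infinitesimal motion but zero. -/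
def PinAt (a : ℕ) (G : SimpleGraph V) (p : V → Fin d → ℝ) (g : V → ℕ → Fin d → ℝ) : Prop :=
  ∀ q : V → Fin d → ℝ, IsMotion G p q → (∀ v, ∀ l < a, g v l ⬝ᵥ q v = 0) → ∀ v, q v = 0

/-- `PinAt` holds for some placement and some directions. -/
def Pin (d a : ℕ) (G : SimpleGraph V) : Prop :=
  ∃ (p : V → Fin d → ℝ) (g : V → ℕ → Fin d → ℝ), PinAt a G p g

/-- the map of the bars to the ground -/
noncomputable def gr (a : ℕ) (g : V → ℕ → Fin d → ℝ) : (V → Fin d → ℝ) →ₗ[ℝ] (V × ℕ → ℝ) where
  toFun q x := if x.2 < a then g x.1 x.2 ⬝ᵥ q x.1 else 0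
  map_add' q q' := by
    funext x
    by_cases h : x.2 < a
    · simp [h]
    · simp [h]
  map_smul' c q := by
    funext x
    by_cases h : x.2 < a
    · simp [h]
    · simp [h]

theorem gr_apply {a : ℕ} {g : V → ℕ → Fin d → ℝ} {q : V → Fin d → ℝ} (x : V × ℕ) :
    gr a g q x = if x.2 < a then g x.1 x.2 ⬝ᵥ q x.1 else 0 := rfl

theorem gr_line (a : ℕ) (g0 g1 : V → ℕ → Fin d → ℝ) (s : ℝ) :
    gr a (g0 + s • g1) = gr a g0 + s • gr a g1 := by
  refine LinearMap.ext fun q => funext fun x => ?_
  rw [LinearMap.add_apply, LinearMap.smul_apply, Pi.add_apply, Pi.smul_apply, gr_apply, gr_apply,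
    gr_apply]
  by_cases h : x.2 < a
  · simp only [h, if_true, Pi.add_apply, Pi.smul_apply, add_dotProduct, smul_dotProduct]
  · simp [h]

theorem pinAt_iff {a : ℕ} {G : SimpleGraph V} {p : V → Fin d → ℝ} {g : V → ℕ → Fin d → ℝ} :
    PinAt a G p g ↔ Function.Injective ((TA.rig G p).prod (gr a g)) := by
  rw [injective_iff_map_eq_zero]
  constructor
  · intro h q hq
    have h1 : TA.rig G p q = 0 := congrArg Prod.fst hq
    have h2 : gr a g q = 0 := congrArg Prod.snd hq
    funext v
    refine h q ((TA.mem_ker_rig G p q).1 h1) (fun v l hl => ?_) v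
    have := congrFun h2 (v, l)
    rw [gr_apply, if_pos hl] at this
    exact this
  · intro h q hq hg v
    have h1 : (TA.rig G p).prod (gr a g) q = 0 := by
      refine Prod.ext ((TA.mem_ker_rig G p q).2 hq) ?_
      funext x
      change gr a g q x = 0
      rw [gr_apply]
      by_cases hx : x.2 < a
      · rw [if_pos hx]
        exact hg _ _ hx
      · rw [if_neg hx]
    rw [h q h1]
    rfl

theorem pin_good [Finite V] (a : ℕ) (G : SimpleGraph V) :
    TA.Good (fun x : (V → Fin d → ℝ) × (V → ℕ → Fin d → ℝ) => PinAt a G x.1 x.2) := by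
  intro x0 x1 h0
  refine (TA.inj_good _ ((TA.rig G (x1.1 - x0.1)).prod (gr a (x1.2 - x0.2)))
    (pinAt_iff.1 h0)).subset ?_
  intro s hs
  rw [Set.mem_ofPred_eq] at hs ⊢
  intro hi
  apply hs
  rw [pinAt_iff]
  have e : (TA.rig G (x0 + s • (x1 - x0)).1).prod (gr a (x0 + s • (x1 - x0)).2) =
      (TA.rig G x0.1).prod (gr a x0.2) +
        s • (TA.rig G (x1.1 - x0.1)).prod (gr a (x1.2 - x0.2)) := by
    have e1 : (x0 + s • (x1 - x0)).1 = x0.1 + s • (x1.1 - x0.1) := rfl
    have e2 : (x0 + s • (x1 - x0)).2 = x0.2 + s • (x1.2 - x0.2) := rfl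
    rw [e1, e2, TA.rig_line, gr_line]
    rfl
  rw [e]
  exact hi

/-- good predicates pulled back by maps which are affine on lines -/
theorem good_comp {E E' : Type*} [AddCommGroup E] [Module ℝ E] [AddCommGroup E'] [Module ℝ E']
    {P : E' → Prop} (hP : TA.Good P) (φ : E → E')
    (hφ : ∀ x y (s : ℝ), φ (x + s • (y - x)) = φ x + s • (φ y - φ x)) :
    TA.Good (fun x => P (φ x)) := by
  intro p0 p1 h
  refine (hP (φ p0) (φ p1) h).subset ?_
  intro s hs
  rw [Set.mem_ofPred_eq] at hs ⊢
  rwa [← hφ]

theorem Pin.map {V' : Type} {a : ℕ} {G : SimpleGraph V} {G' : SimpleGraph V'} (e : V ≃ V')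
    (he : ∀ u v, G.Adj u v → G'.Adj (e u) (e v)) (h : Pin d a G) : Pin d a G' := by
  obtain ⟨p, g, hp⟩ := h
  refine ⟨fun v => p (e.symm v), fun v => g (e.symm v), ?_⟩
  intro q hq hg v
  have h1 := hp (fun v => q (e v)) (by
    intro u v huv
    have := hq (e u) (e v) (he u v huv)
    simpa using this) (by
    intro v l hl
    have := hg (e v) l hl
    simpa using this) (e.symm v)
  simpa using h1

/-- `d` bars at every vertex suffice. -/
theorem pin_full (G : SimpleGraph V) : Pin d d G := by
  refine ⟨0, fun _ l => if h : l < d then Pi.single ⟨l, h⟩ 1 else 0, ?_⟩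
  intro q _ hg v
  funext i
  have := hg v i i.2
  simpa using this

/-- products with any graph -/
theorem Pin.prod {a : ℕ} {G : SimpleGraph V} (H : SimpleGraph W) (h : Pin d a G) :
    Pin d a (G.boxProd H) := by
  obtain ⟨p, g, hp⟩ := h
  refine ⟨fun x => p x.1, fun x => g x.1, ?_⟩
  rintro q hq hg ⟨v, w⟩
  exact hp (fun v => q (v, w)) (fun u v huv => hq (u, w) (v, w) (by
    rw [SimpleGraph.boxProd_adj]; exact Or.inl ⟨huv, rfl⟩)) (fun v l hl => hg (v, w) l hl) v

/-- **Products with a graph with a cycle.** One bar per vertex is replaced by the edges of the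
second factor. -/
theorem Pin.prod_ring [Finite V] [Finite W] {a : ℕ} {G : SimpleGraph V} {H : SimpleGraph W}
    {f : W → W} {s : W} (hadj : ∀ w, H.Adj w (f w)) (hs : f (f s) ≠ s)
    (hr : ∀ w, ∃ k : ℕ, f^[k] w = s) (hG : Pin d (a + 2) G) : Pin d (a + 1) (G.boxProd H) := by
  classical
  set t := f s with ht
  have hst : s ≠ t := (hadj s).ne
  -- the bars to the ground of the product, and the bars of a layer
  let gt : (V × W → Fin d → ℝ) × (V × W → ℕ → Fin d → ℝ) → V × W → ℕ → Fin d → ℝ := fun x y l =>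
    if y.2 = t ∧ l = 0 then x.1 (y.1, s) - x.1 (y.1, t) else x.2 y l
  let D : W → (V × W → Fin d → ℝ) × (V × W → ℕ → Fin d → ℝ) → V → ℕ → Fin d → ℝ := fun w x v l =>
    if l = a + 1 then x.1 (v, w) - x.1 (v, f w) else gt x (v, w) l
  obtain ⟨x, hx⟩ := TA.good_family
    (fun (w : W) (x : (V × W → Fin d → ℝ) × (V × W → ℕ → Fin d → ℝ)) =>
      PinAt (a + 2) G (fun v => x.1 (v, w)) (D w x)) (by
    intro w
    refine good_comp (pin_good (a + 2) G) (fun x => (fun v => x.1 (v, w), D w x)) ?_
    intro x y r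
    refine Prod.ext ?_ ?_
    · rfl
    · funext v l
      simp only [D, gt, Prod.snd_add, Prod.smul_snd, Prod.snd_sub, Prod.fst_add, Prod.smul_fst,
        Prod.fst_sub, Pi.add_apply, Pi.smul_apply, Pi.sub_apply]
      split_ifs
      · module
      · module
      · rfl) (by
    intro w
    obtain ⟨p, g, hp⟩ := hG
    have hfw : f w ≠ w := (hadj w).ne'
    refine ⟨(fun y => if y.2 = w then p y.1 else if y.2 = f w then p y.1 - g y.1 (a + 1) else
      p y.1 + g y.1 0, fun y l => g y.1 l), ?_⟩
    have e1 : ∀ v l, D w (fun y => if y.2 = w then p y.1 else if y.2 = f w then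
        p y.1 - g y.1 (a + 1) else p y.1 + g y.1 0, fun y l => g y.1 l) v l = g v l := by
      intro v l
      simp only [D, gt]
      by_cases hl : l = a + 1
      · simp [hl, hfw]
      · rw [if_neg hl]
        by_cases hw : w = t ∧ l = 0
        · rw [if_pos hw]
          obtain ⟨hw1, hw2⟩ := hw
          have h1 : s ≠ w := by rw [hw1]; exact hst
          have h2 : s ≠ f w := by rw [hw1]; exact hs.symm
          simp [h1, h2, hw1.symm, hw2]
        · rw [if_neg hw]
    have e2 : (D w (fun y => if y.2 = w then p y.1 else if y.2 = f w then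
        p y.1 - g y.1 (a + 1) else p y.1 + g y.1 0, fun y l => g y.1 l)) = g :=
      funext fun v => funext fun l => e1 v l
    rw [e2]
    have e3 : (fun v => (if w = w then p v else if w = f w then
        p v - g v (a + 1) else p v + g v 0 : Fin d → ℝ)) = p := by
      funext v
      simp
    convert hp using 1)
  refine ⟨x.1, gt x, ?_⟩
  intro q hq hg
  have key : ∀ (k : ℕ) (w : W), f^[k] w = s → ∀ v, q (v, w) = 0 := by
    intro k
    have main : ∀ w, (∀ v, (x.1 (v, w) - x.1 (v, f w)) ⬝ᵥ q (v, w) = 0) → ∀ v, q (v, w) = 0 := by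
      intro w h1 v
      refine hx w (fun v => q (v, w)) (fun u v huv => hq (u, w) (v, w) (by
        rw [SimpleGraph.boxProd_adj]; exact Or.inl ⟨huv, rfl⟩)) ?_ v
      intro v l hl
      by_cases hla : l = a + 1
      · simp only [D, hla, if_true]
        exact h1 v
      · simp only [D, hla, if_false]
        exact hg (v, w) l (by omega)
    have bar : ∀ w v, (x.1 (v, w) - x.1 (v, f w)) ⬝ᵥ (q (v, w) - q (v, f w)) = 0 := fun w v =>
      hq (v, w) (v, f w) (by rw [SimpleGraph.boxProd_adj]; exact Or.inr ⟨hadj w, rfl⟩)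
    induction k with
    | zero =>
      intro w hw
      have hw' : w = s := hw
      subst hw'
      refine main w fun v => ?_
      have h1 := bar w v
      have h2 := hg (v, t) 0 (by omega)
      simp only [gt, and_self, if_true] at h2
      rw [dotProduct_sub, ← ht, h2, sub_zero] at h1
      exact h1
    | succ k ih =>
      intro w hw
      rw [Function.iterate_succ_apply] at hw
      refine main w fun v => ?_
      have h1 := bar w v
      rw [ih (f w) hw v, sub_zero] at h1
      exact h1
  rintro ⟨v, w⟩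
  obtain ⟨k, hk⟩ := hr w
  exact key k w hk v

end Pool.Agent.Q139.Car
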