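import Pool.Agent.Q139.Car.Split

set_option autoImplicit false

/-!
# Products of edges and cycles
-/

namespace Pool.Agent.Q139.Car

open Finset Pool.Agent.H283R2.DR Pool.Agent.H789R5

variable {ι : Type} {V : ι → Type}

open Classical in
/-- degrees in a product -/
theorem deg_cart [Fintype ι] [∀ i, Finite (V i)] (G : ∀ i, SimpleGraph (V i)) (x : ∀ i, V i) :
    Nat.card {y // (cart G).Adj x y} ≤ ∑ i, Nat.card {v // (G i).Adj (x i) v} := by
  rw [← Nat.card_sigma]
  refine Nat.card_le_card_of_surjective (fun t : (Σ i, {v // (G i).Adj (x i) v}) =>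
    (⟨Function.update x t.1 t.2.1, by
      have h := cart_update (G := G) x t.1 t.2.2
      rwa [Function.update_eq_self] at h⟩ : {y // (cart G).Adj x y})) ?_
  rintro ⟨y, hy⟩
  obtain ⟨i, h, hj⟩ := id hy
  refine ⟨⟨i, y i, h⟩, Subtype.ext ?_⟩
  change Function.update x i (y i) = y
  funext j
  by_cases hji : j = i
  · subst hji
    rw [Function.update_self]
  · rw [Function.update_of_ne hji]
    exact hj j hji

open Classical in
/-- handshake -/
theorem two_edges {W : Type} [Fintype W] (H : SimpleGraph W) {D : ℕ}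
    (hD : ∀ x, Nat.card {y // H.Adj x y} ≤ D) : 2 * H.edgeSet.ncard ≤ Fintype.card W * D := by
  have h1 := H.sum_degrees_eq_twice_card_edges
  have h2 : H.edgeFinset.card = H.edgeSet.ncard := by
    rw [← SimpleGraph.coe_edgeFinset, Set.ncard_coe_finset]
  rw [← h2, ← h1, ← smul_eq_mul, ← card_univ, ← sum_const]
  refine sum_le_sum fun x _ => ?_
  refine le_trans (le_of_eq ?_) (hD x)
  rw [← SimpleGraph.card_neighborSet_eq_degree, ← Nat.card_eq_fintype_card]
  rfl

open Classical in
/-- two-regular connected graphs have cycles -/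
theorem not_acyclic {W : Type} [Finite W] {H : SimpleGraph W} (hH : H.Connected)
    (h2 : ∀ x, Nat.card {y // H.Adj x y} = 2) : ¬ H.IsAcyclic := by
  intro ha
  have := Fintype.ofFinite W
  have h1 := H.sum_degrees_eq_twice_card_edges
  have h3 : H.IsTree := ⟨hH, ha⟩
  have h4 := h3.card_edgeFinset
  have h5 : ∀ x, H.degree x = 2 := by
    intro x
    rw [← SimpleGraph.card_neighborSet_eq_degree, ← Nat.card_eq_fintype_card]
    exact h2 x
  rw [sum_congr rfl (fun x _ => h5 x), sum_const, card_univ, smul_eq_mul] at h1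
  omega

theorem rigid_count {W : Type} [Fintype W] {H : SimpleGraph W} (h3 : 3 ≤ Fintype.card W)
    (hr : GenRigid 3 H) : 3 * Fintype.card W ≤ 6 + H.edgeSet.ncard := by
  obtain ⟨p, hp⟩ := exists_mg W 3
  have h1 := (genRigid_iff hp h3 H).1 hr
  have h2 := Pool.Agent.TH349.Rig.rank_le_edges H p
  omega

open Classical in
/-- **Products of edges and cycles.** -/
theorem sharp [Fintype ι] [∀ i, Fintype (V i)] {G : ∀ i, SimpleGraph (V i)}
    (hG : ∀ i, (G i).Connected) (r : ι → ℕ) (hr : ∀ i, r i = 1 ∨ r i = 2)
    (hreg : ∀ i x, Nat.card {y // (G i).Adj x y} = r i) (h4 : 4 ≤ Fintype.card (∀ i, V i)) :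
    GenRigid 3 (cart G) ↔ 6 ≤ ∑ i, r i := by
  constructor
  · intro h
    have h1 := rigid_count (by omega) h
    have h2 := two_edges (cart G) (D := ∑ i, r i) (fun x => (deg_cart G x).trans (le_of_eq
      (sum_congr rfl fun i _ => hreg i _)))
    have h3 : 3 ^ (∑ i, r i) ≤ (Fintype.card (∀ i, V i)) ^ 2 := by
      rw [Fintype.card_pi, ← prod_pow, ← prod_pow_eq_pow_sum]
      refine prod_le_prod' fun i _ => ?_
      have hx : r i < Fintype.card (V i) := by
        obtain ⟨x⟩ := (hG i).nonempty
        rw [← hreg i x, Nat.card_eq_fintype_card]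
        exact Fintype.card_subtype_lt (x := x) (G i).irrefl
      rcases hr i with h | h
      · rw [h] at hx ⊢
        nlinarith
      · rw [h] at hx ⊢
        nlinarith
    by_contra h6
    push Not at h6
    generalize hN : Fintype.card (∀ i, V i) = N at *
    generalize hD : ∑ i, r i = D at *
    interval_cases D <;> first | omega | (have : N ≤ 12 := by omega
                                          interval_cases N <;> omega)
  · intro h
    refine rigid_family hG ?_ (h.trans (sum_le_sum fun i _ => ?_))
    · intro i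
      obtain ⟨x⟩ := (hG i).nonempty
      have h1 : 0 < Nat.card {y // (G i).Adj x y} := by
        rw [hreg i x]
        rcases hr i with h | h <;> omega
      obtain ⟨⟨⟨y, hy⟩⟩, _⟩ := Nat.card_pos_iff.1 h1
      exact ⟨x, y, hy.ne⟩
    · rcases hr i with h1 | h1
      · rw [h1]
        exact wt_pos G i
      · rw [h1]
        unfold wt
        rw [if_pos (ring_of_not_acyclic (not_acyclic (hG i) fun x => by rw [hreg i x, h1]))]

open Classical in
/-- **Factors with cycles count twice.** -/
theorem rigid_weights [Fintype ι] [∀ i, Finite (V i)] {G : ∀ i, SimpleGraph (V i)}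
    (hG : ∀ i, (G i).Connected) (hn : ∀ i, Nontrivial (V i))
    (hw : 6 ≤ Fintype.card ι + Nat.card {i // ¬ (G i).IsAcyclic}) :
    GenRigid 3 (cart G) := by
  refine rigid_family hG hn (hw.trans ?_)
  unfold wt
  rw [sum_add_distrib, sum_const, card_univ, smul_eq_mul, mul_one, sum_boole, Nat.cast_id,
    Nat.card_eq_fintype_card, Fintype.card_subtype]
  refine Nat.add_le_add_left (card_le_card ?_) _
  intro i hi
  rw [mem_filter] at hi ⊢
  exact ⟨hi.1, ring_of_not_acyclic hi.2⟩

end Pool.Agent.Q139.Car
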