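import Pool.Agent.Q139.Car.Fam

set_option autoImplicit false

/-!
# Products with enough factors
-/

namespace Pool.Agent.Q139.Car

open Finset Pool.Agent.H283R2.DR

variable {ι : Type} {V : ι → Type}

open Classical in
/-- the weight of a factor: one, and one more if it has a cycle -/
noncomputable def wt (G : ∀ i, SimpleGraph (V i)) (i : ι) : ℕ := 1 + if Ring (G i) then 1 else 0

theorem wt_pos (G : ∀ i, SimpleGraph (V i)) (i : ι) : 1 ≤ wt G i := Nat.le_add_right _ _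

theorem wt_le (G : ∀ i, SimpleGraph (V i)) (i : ι) : wt G i ≤ 2 := by
  unfold wt
  split_ifs <;> norm_num

theorem ring_of_wt {G : ∀ i, SimpleGraph (V i)} {i : ι} (h : 2 ≤ wt G i) : Ring (G i) := by
  unfold wt at h
  split_ifs at h with h1
  · exact h1
  · omega

open Classical in
/-- sets of weight two -/
theorem exists_two (G : ∀ i, SimpleGraph (V i)) (T : Finset ι) (hT : 2 ≤ ∑ i ∈ T, wt G i) :
    ∃ S ⊆ T, ∑ i ∈ S, wt G i = 2 := by
  by_cases h : ∃ i ∈ T, wt G i = 2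
  · obtain ⟨i, hi, h2⟩ := h
    exact ⟨{i}, singleton_subset_iff.2 hi, by rw [sum_singleton, h2]⟩
  · push Not at h
    have h1 : ∀ i ∈ T, wt G i = 1 := by
      intro i hi
      have := h i hi
      have := wt_pos G i
      have := wt_le G i
      omega
    rw [sum_congr rfl h1, sum_const, smul_eq_mul, mul_one] at hT
    obtain ⟨S, hS, hc⟩ := exists_subset_card_eq hT
    refine ⟨S, hS, ?_⟩
    rw [sum_congr rfl (fun i hi => h1 i (hS hi)), sum_const, smul_eq_mul, mul_one, hc]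

/-- a part of weight at least two has a cycle -/
theorem ring_part {G : ∀ i, SimpleGraph (V i)} (hG : ∀ i, (G i).Connected)
    (hn : ∀ i, Nontrivial (V i)) (S : Finset ι) (hS : 2 ≤ ∑ i ∈ S, wt G i) :
    Ring (cart fun i : {i // i ∈ S} => G i) := by
  classical
  have x : ∀ i : {i // i ∈ S}, V i := fun i => (hG i).nonempty.some
  by_cases h : ∃ i ∈ S, Ring (G i)
  · obtain ⟨i, hi, h2⟩ := h
    exact ring_of_factor (G := fun i : {i // i ∈ S} => G i) x ⟨i, hi⟩ h2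
  · push Not at h
    have h1 : ∀ i ∈ S, wt G i = 1 := by
      intro i hi
      unfold wt
      rw [if_neg (h i hi)]
    rw [sum_congr rfl h1, sum_const, smul_eq_mul, mul_one] at hS
    obtain ⟨i, hi, j, hj, hij⟩ := one_lt_card.1 (show 1 < S.card by omega)
    have := hn i
    have := hn j
    obtain ⟨a', ha⟩ := (hG i).preconnected.exists_adj_of_nontrivial (x ⟨i, hi⟩)
    obtain ⟨b', hb⟩ := (hG j).preconnected.exists_adj_of_nontrivial (x ⟨j, hj⟩)
    refine ring_of_pair (G := fun i : {i // i ∈ S} => G i) x (i := ⟨i, hi⟩) (j := ⟨j, hj⟩) ?_ ha hb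
    intro h
    exact hij (congrArg Subtype.val h)

/-- **Products with enough factors.** -/
theorem rigid_family [Fintype ι] [∀ i, Finite (V i)] {G : ∀ i, SimpleGraph (V i)}
    (hG : ∀ i, (G i).Connected) (hn : ∀ i, Nontrivial (V i)) (hw : 6 ≤ ∑ i, wt G i) :
    GenRigid 3 (cart G) := by
  classical
  obtain ⟨S₁, h1s, h1⟩ := exists_two G univ (by omega)
  have e1 := sum_sdiff h1s (f := wt G)
  obtain ⟨S₂, h2s, h2⟩ := exists_two G (univ \ S₁) (by omega)
  have e2 := sum_sdiff h2s (f := wt G)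
  set S₃ := (univ \ S₁) \ S₂ with hS3
  have r1 := ring_part hG hn S₁ (by omega)
  have r2 := ring_part hG hn S₂ (by omega)
  have r3 := ring_part hG hn S₃ (by omega)
  have c1 : (cart fun i : {i // i ∈ S₁} => G i).Connected := cart_conn fun i => hG i
  have c2 : (cart fun i : {i // i ∈ S₂} => G i).Connected := cart_conn fun i => hG i
  have c3 : (cart fun i : {i // i ∈ S₃} => G i).Connected := cart_conn fun i => hG i
  have hd : ∀ i, i ∈ S₂ → i ∉ S₁ := fun i hi => (mem_sdiff.1 (h2s hi)).2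
  have hd3 : ∀ i, i ∉ S₁ → i ∉ S₂ → i ∈ S₃ := fun i hi hi' =>
    mem_sdiff.2 ⟨mem_sdiff.2 ⟨mem_univ i, hi⟩, hi'⟩
  have hd1 : ∀ i, i ∈ S₃ → i ∉ S₁ := fun i hi => (mem_sdiff.1 (mem_sdiff.1 hi).1).2
  have hd2 : ∀ i, i ∈ S₃ → i ∉ S₂ := fun i hi => (mem_sdiff.1 hi).2
  have key := rigid_three c1 r1 c2 r2 c3 r3
  let F : ((∀ i : {i // i ∈ S₁}, V i) × (∀ i : {i // i ∈ S₂}, V i)) ×
      (∀ i : {i // i ∈ S₃}, V i) → ∀ i, V i := fun t i =>
    if h : i ∈ S₁ then t.1.1 ⟨i, h⟩ else if h' : i ∈ S₂ then t.1.2 ⟨i, h'⟩ else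
      t.2 ⟨i, hd3 i h h'⟩
  have F1 : ∀ t i (h : i ∈ S₁), F t i = t.1.1 ⟨i, h⟩ := fun t i h => dif_pos h
  have F2 : ∀ t i (h : i ∈ S₂), F t i = t.1.2 ⟨i, h⟩ := by
    intro t i h
    change (if h : i ∈ S₁ then _ else _) = _
    rw [dif_neg (hd i h), dif_pos h]
  have F3 : ∀ t i (h : i ∈ S₃), F t i = t.2 ⟨i, h⟩ := by
    intro t i h
    change (if h : i ∈ S₁ then _ else _) = _
    rw [dif_neg (hd1 i h), dif_neg (hd2 i h)]
  let e : ((∀ i : {i // i ∈ S₁}, V i) × (∀ i : {i // i ∈ S₂}, V i)) ×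
      (∀ i : {i // i ∈ S₃}, V i) ≃ ∀ i, V i :=
    { toFun := F
      invFun := fun x => ((fun i => x i, fun i => x i), fun i => x i)
      left_inv := by
        rintro ⟨⟨a, b⟩, c⟩
        refine Prod.ext (Prod.ext ?_ ?_) ?_
        · funext ⟨i, hi⟩
          exact F1 _ i hi
        · funext ⟨i, hi⟩
          exact F2 _ i hi
        · funext ⟨i, hi⟩
          exact F3 _ i hi
      right_inv := by
        intro x
        funext i
        by_cases h : i ∈ S₁
        · exact F1 _ i h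
        · by_cases h' : i ∈ S₂
          · exact F2 _ i h'
          · exact F3 _ i (hd3 i h h') }
  refine genRigid_map e ?_ key
  rintro ⟨⟨a, b⟩, c⟩ ⟨⟨a', b'⟩, c'⟩ h
  rw [SimpleGraph.boxProd_adj, SimpleGraph.boxProd_adj] at h
  change (cart G).Adj (F ((a, b), c)) (F ((a', b'), c'))
  rcases h with ⟨⟨⟨⟨i, hi⟩, hadj, hj⟩, hb⟩ | ⟨⟨⟨i, hi⟩, hadj, hj⟩, ha⟩, hc⟩ |
    ⟨⟨⟨i, hi⟩, hadj, hj⟩, hab⟩
  · dsimp only at hb hc hadj hj
    subst hb hc
    refine ⟨i, ?_, fun j hji => ?_⟩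
    · rw [F1 _ i hi, F1 _ i hi]
      exact hadj
    · by_cases h1 : j ∈ S₁
      · rw [F1 _ j h1, F1 _ j h1]
        exact hj ⟨j, h1⟩ (fun h => hji (congrArg Subtype.val h))
      · by_cases h2 : j ∈ S₂
        · rw [F2 _ j h2, F2 _ j h2]
        · rw [F3 _ j (hd3 j h1 h2), F3 _ j (hd3 j h1 h2)]
  · dsimp only at ha hc hadj hj
    subst ha hc
    refine ⟨i, ?_, fun j hji => ?_⟩
    · rw [F2 _ i hi, F2 _ i hi]
      exact hadj
    · by_cases h1 : j ∈ S₁
      · rw [F1 _ j h1, F1 _ j h1]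
      · by_cases h2 : j ∈ S₂
        · rw [F2 _ j h2, F2 _ j h2]
          exact hj ⟨j, h2⟩ (fun h => hji (congrArg Subtype.val h))
        · rw [F3 _ j (hd3 j h1 h2), F3 _ j (hd3 j h1 h2)]
  · dsimp only at hab hadj hj
    obtain ⟨ha, hb⟩ := Prod.mk.inj hab
    subst ha hb
    refine ⟨i, ?_, fun j hji => ?_⟩
    · rw [F3 _ i hi, F3 _ i hi]
      exact hadj
    · by_cases h1 : j ∈ S₁
      · rw [F1 _ j h1, F1 _ j h1]
      · by_cases h2 : j ∈ S₂
        · rw [F2 _ j h2, F2 _ j h2]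
        · rw [F3 _ j (hd3 j h1 h2), F3 _ j (hd3 j h1 h2)]
          exact hj ⟨j, hd3 j h1 h2⟩ (fun h => hji (congrArg Subtype.val h))

end Pool.Agent.Q139.Car
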