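import Pool.Agent.Q139.Car.Base

set_option autoImplicit false

/-!
# The product of three triangles: conclusion
-/

namespace Pool.Agent.Q139.Car

open Matrix Finset Pool.Agent.H283R2.DR

/-- the product of three triangles -/
abbrev K3 : SimpleGraph (Fin 3) := ⊤

theorem adj_of_adj3 {x y : T3} (h : adj3 x y) : ((K3.boxProd K3).boxProd K3).Adj x y := by
  rw [SimpleGraph.boxProd_adj, SimpleGraph.boxProd_adj]
  exact h

/-- the sum of the multiples of the equations of the edges in a combination -/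
noncomputable def sm (q : Fin 27 → Fin 3 → ℝ) : List (Fin 27 × Fin 27 × ℤ) → ℝ
  | [] => 0
  | e :: l => (e.2.2 : ℝ) * ∑ c, ((pt e.1 c : ℝ) - pt e.2.1 c) * (q e.1 c - q e.2.1 c) + sm q l

theorem sm_eq (q : Fin 27 → Fin 3 → ℝ) (l : List (Fin 27 × Fin 27 × ℤ)) :
    sm q l = ∑ x, ∑ c, (cf x c l : ℝ) * q x c := by
  induction l with
  | nil => simp [sm, cf]
  | cons e l ih =>
    have h1 : ∀ x c, ((cf x c (e :: l) : ℤ) : ℝ) * q x c =
        (if x = e.1 then (e.2.2 : ℝ) * ((pt e.1 c : ℝ) - pt e.2.1 c) * q x c else 0) -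
        (if x = e.2.1 then (e.2.2 : ℝ) * ((pt e.1 c : ℝ) - pt e.2.1 c) * q x c else 0) +
        (cf x c l : ℝ) * q x c := by
      intro x c
      simp only [cf]
      push_cast
      split_ifs <;> ring
    have h2 : ∑ x, ∑ c, ((cf x c (e :: l) : ℤ) : ℝ) * q x c =
        ∑ c, (e.2.2 : ℝ) * ((pt e.1 c : ℝ) - pt e.2.1 c) * q e.1 c -
        ∑ c, (e.2.2 : ℝ) * ((pt e.1 c : ℝ) - pt e.2.1 c) * q e.2.1 c +
        ∑ x, ∑ c, (cf x c l : ℝ) * q x c := by
      rw [sum_congr rfl fun x _ => sum_congr rfl fun c _ => h1 x c]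
      simp only [sum_add_distrib, sum_sub_distrib]
      congr 1
      rw [sum_comm, sum_comm (s := univ) (t := univ) (f := fun x c => if x = e.2.1 then
        (e.2.2 : ℝ) * ((pt e.1 c : ℝ) - pt e.2.1 c) * q x c else 0)]
      simp only [sum_ite_eq', mem_univ, if_true]
    rw [h2, ← ih]
    simp only [sm]
    rw [mul_sum, ← sum_sub_distrib]
    congr 1
    exact sum_congr rfl fun c _ => by ring

/-- A motion which is zero in the fixed coordinates is zero. -/
theorem zero_of_fixd (q : Fin 27 → Fin 3 → ℝ) (hfix : ∀ i c, fixd i c = true → q i c = 0)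
    (hq : ∀ i j, adj3 (vtx i) (vtx j) →
      ∑ c, ((pt i c : ℝ) - pt j c) * (q i c - q j c) = 0) : ∀ i c, q i c = 0 := by
  intro i c
  by_cases hic : fixd i c = true
  · exact hfix i c hic
  · have hic' : fixd i c = false := by simpa using hic
    have h1 : sm q (cb i c) = 0 := by
      have : ∀ l : List (Fin 27 × Fin 27 × ℤ), (∀ e ∈ l, adj3 (vtx e.1) (vtx e.2.1)) →
          sm q l = 0 := by
        intro l
        induction l with
        | nil => intro _; rfl
        | cons e l ih =>
          intro h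
          simp only [sm]
          rw [hq e.1 e.2.1 (h e (List.mem_cons_self ..)),
            ih (fun e' he' => h e' (List.mem_cons_of_mem _ he')), mul_zero, add_zero]
      exact this _ (check_adj i c)
    rw [sm_eq] at h1
    have h2 : ∀ x c', (cf x c' (cb i c) : ℝ) * q x c' = if x = i ∧ c' = c then q x c' else 0 := by
      intro x c'
      by_cases hx : fixd x c' = true
      · rw [hfix x c' hx]
        simp
      · have hx' : fixd x c' = false := by simpa using hx
        rw [check_cf i c hic' x c' hx']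
        split_ifs <;> simp
    rw [sum_congr rfl fun x _ => sum_congr rfl fun c' _ => h2 x c'] at h1
    have h3 : ∀ x, (∑ c', if x = i ∧ c' = c then q x c' else 0) = if x = i then q x c else 0 := by
      intro x
      by_cases hx : x = i
      · simp [hx]
      · simp [hx]
    rw [sum_congr rfl fun x _ => h3 x] at h1
    simpa using h1

/-- **The product of three triangles is generically rigid in `ℝ³`.** -/
theorem base : GenRigid 3 ((K3.boxProd K3).boxProd K3) := by
  let e : Fin 27 ≃ T3 := Equiv.ofBijective vtx ⟨fun i j h => check_inj i j h, check_vtx⟩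
  have he : ∀ i, e i = vtx i := fun i => rfl
  refine ⟨fun y c => (pt (e.symm y) c : ℝ), ?_⟩
  intro q hq
  set q0 : Fin 27 → Fin 3 → ℝ := fun i c => q (vtx i) c with hq0
  let a := q0 1 1 - q0 0 1
  let b := q0 1 2 - q0 0 2
  let c := q0 2 2 - q0 0 2
  let A : Matrix (Fin 3) (Fin 3) ℝ := !![0, -a, -b; a, 0, -c; b, c, 0]
  have hA : Aᵀ = -A := by
    ext i j
    fin_cases i <;> fin_cases j <;> simp [A]
  refine ⟨A, q0 0, hA, ?_⟩
  have key := zero_of_fixd (fun i j => q0 i j - (A *ᵥ (fun c => (pt i c : ℝ)) + q0 0) j) (by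
    intro i j hij
    have hp0 : ∀ c, pt 0 c = 0 := by decide
    have hp10 : pt 1 0 = 1 := by decide
    have hp11 : pt 1 1 = 0 := by decide
    have hp12 : pt 1 2 = 0 := by decide
    have hp20 : pt 2 0 = 0 := by decide
    have hp21 : pt 2 1 = 1 := by decide
    have hp22 : pt 2 2 = 0 := by decide
    have hcases : ∀ i j, fixd i j = true → i = 0 ∨ (i = 1 ∧ j = 1) ∨ (i = 1 ∧ j = 2) ∨
        (i = 2 ∧ j = 2) := by decide
    rcases hcases i j hij with rfl | ⟨rfl, rfl⟩ | ⟨rfl, rfl⟩ | ⟨rfl, rfl⟩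
    · simp [mulVec, dotProduct, hp0]
    · simp [dotProduct, Fin.sum_univ_three, hp10, hp11, hp12, A, a]
    · simp [dotProduct, Fin.sum_univ_three, hp10, hp11, hp12, A, b]
    · simp [dotProduct, Fin.sum_univ_three, hp20, hp21, hp22, A, c]) (by
    intro i j hij
    have h1 := hq (vtx i) (vtx j) (adj_of_adj3 hij)
    have h2 : ∀ i, e.symm (vtx i) = i := fun i => by rw [← he, Equiv.symm_apply_apply]
    beta_reduce at h1
    rw [h2, h2] at h1
    have h3 : (((fun c => (pt i c : ℝ)) - (fun c => (pt j c : ℝ)) : Fin 3 → ℝ)) ⬝ᵥ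
        ((A *ᵥ (fun c => (pt i c : ℝ)) + q0 0) - (A *ᵥ (fun c => (pt j c : ℝ)) + q0 0)) = 0 :=
      triv_motion hA _ _ _
    have h4 : (((fun c => (pt i c : ℝ)) - (fun c => (pt j c : ℝ)) : Fin 3 → ℝ)) ⬝ᵥ
        ((q (vtx i) - q (vtx j)) -
        ((A *ᵥ (fun c => (pt i c : ℝ)) + q0 0) - (A *ᵥ (fun c => (pt j c : ℝ)) + q0 0))) = 0 := by
      rw [dotProduct_sub, h3, sub_zero]
      exact h1
    rw [← h4]
    simp only [dotProduct, Pi.sub_apply]
    exact sum_congr rfl fun c _ => by ring)
  intro y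
  obtain ⟨i, rfl⟩ := check_vtx y
  have h2 : e.symm (vtx i) = i := by rw [← he, Equiv.symm_apply_apply]
  beta_reduce
  rw [h2]
  funext j
  have := key i j
  exact sub_eq_zero.1 this

end Pool.Agent.Q139.Car
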